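import Mathlib

/-!
# Disproof of the HRT conjecture: common definitions

A trigonometric sum is a list of pairs (coefficient, frequency).
-/

set_option autoImplicit false

namespace Pool.Agent.Helper92.HRT

open MeasureTheory

/-- `e t = exp (2 π i t)`. -/
noncomputable def e (t : ℝ) : ℂ := Complex.exp (2 * Real.pi * t * Complex.I)

/-- Formal trigonometric sums: lists of (coefficient, frequency). -/
abbrev TS := List (ℂ × ℝ)

/-- Evaluation of a trigonometric sum. -/
noncomputable def ev (L : TS) (x : ℝ) : ℂ := (L.map fun p => p.1 * e (p.2 * x)).sum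

/-- Product of trigonometric sums. -/
noncomputable def mul (L L' : TS) : TS :=
  L.flatMap fun p => L'.map fun q => (p.1 * q.1, p.2 + q.2)

/-- The sum of the absolute values of the coefficients. -/
noncomputable def l1 (L : TS) : ℝ := (L.map fun p => ‖p.1‖).sum

/-- `K t = |sin (π t)| ^ (-9/10)` with value `∞` at integers. -/
noncomputable def K (t : ℝ) : ENNReal :=
  ENNReal.ofReal |Real.sin (Real.pi * t)| ^ (-(9 / 10) : ℝ)

/-- The weighted size of a trigonometric sum. -/
noncomputable def wt (L : TS) : ENNReal :=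
  (L.map fun p => ENNReal.ofReal ‖p.1‖ * K p.2).sum

/-- The difference functional. -/
noncomputable def Dsum (N : ℕ) (x : ℝ) (F : ℝ → ℂ) : ℝ :=
  ∑ ν ∈ Finset.range N, ((F (-1 - x - ν)).re - (F (x + ν)).re)

/-- The difference functional of a cosine wave. -/
noncomputable def Dr (N : ℕ) (x t ψ : ℝ) : ℝ :=
  ∑ ν ∈ Finset.range N, (Real.cos (2 * Real.pi * (t * (-1 - x - ν) + ψ))
    - Real.cos (2 * Real.pi * (t * (x + ν) + ψ)))

/-- Probabilities of the lazy random walk: the number of heads among `2n` fair coins. -/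
noncomputable def rho (n k : ℕ) : ℝ := (Nat.choose (2 * n) k : ℝ) / 4 ^ n

/-- Return probability. -/
noncomputable def rhoC (n : ℕ) : ℝ := rho n n

/-- The expansion of `cos (π g x) ^ (2n)`. -/
noncomputable def Hl (n : ℕ) (g : ℝ) : TS :=
  (List.range (2 * n + 1)).map fun k => (((rho n k : ℝ) : ℂ), ((k : ℝ) - n) * g)

/-- Binomial probabilities. -/
noncomputable def Bin (a : ℝ) (n l : ℕ) : ℝ := (n.choose l : ℝ) * a ^ l * (1 - a) ^ (n - l)

/-- The Liouville-type number attached to a sequence of exponents. -/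
noncomputable def alpha (E : ℕ → ℕ) : ℝ := ∑' j, (1 / 2 : ℝ) ^ (E j)

/-- Numerators of the approximations of `alpha E` with denominators `2 ^ E j`. -/
def pnum (E : ℕ → ℕ) (j : ℕ) : ℕ := ∑ i ∈ Finset.range (j + 1), 2 ^ (E j - E i)

/-- `del E j = 2 ^ E j * alpha E - pnum E j`. -/
noncomputable def del (E : ℕ → ℕ) (j : ℕ) : ℝ := 2 ^ (E j) * alpha E - pnum E j

/-- The probability parameter. -/
noncomputable def aa (E : ℕ → ℕ) : ℝ := 1 / (1 + alpha E)

/-- `tt E n l = l α - (n - l)`. -/
noncomputable def tt (E : ℕ → ℕ) (n l : ℕ) : ℝ := l * alpha E - ((n : ℝ) - l)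

/-- The near-resonant part of the main sum. -/
noncomputable def near (E : ℕ → ℕ) (β : ℝ) (N M : ℕ) (x : ℝ) : ℝ :=
  ∑ n ∈ Finset.Icc 1 M, (1 / (n : ℝ)) * rhoC n ^ 6 *
    ∑ l ∈ (Finset.range (n + 1)).filter (fun l => |tt E n l| < 1),
      Bin (aa E) n l * Dr N x (β * tt E n l) (-((n : ℝ) - l) / 4)

/-- The logarithmic cocycle attached to `P = 1 - u`, `Q x = P (-1 - x)`. -/
noncomputable def S (u : TS) (N : ℕ) (x : ℝ) : ℝ :=
  ∑ ν ∈ Finset.range N,
    (Real.log ‖1 - ev u (x + ν)‖ - Real.log ‖1 - ev u (-1 - x - ν)‖)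

/-- Exponents of the twelve chains. -/
def cc : Fin 12 → ℕ := ![8, 12, 16, 24, 32, 48, 64, 96, 128, 192, 256, 384]

/-- Exponents of chain `i`. -/
def Ech (i : Fin 12) (j : ℕ) : ℕ := cc i * 64 ^ j

end Pool.Agent.Helper92.HRT
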